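import Pool.Agent.W623.SecH.Stm2
import Pool.Agent.W623.SecG.Val

set_option autoImplicit false

/-!
# Uniqueness of the place above a branch point

(helper303, for helper623)  The proof of `STABX`: the elements of the field generated by the
constants, `x`, `y` and the square roots of the ratios have leading terms which are the same for
all the valuation rings considered.
-/

namespace Pool.Agent.W303.SH

open Pool.Agent.W623.SecC Pool.Agent.W623.SecG Pool.Agent.W623.SecH Polynomial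

section ex2

variable {k M : Type*} [Field k] [Field M] [Algebra k M] (Ws : Bool → ValuationSubring M) (y : M)

/-- `z = r y ^ n + ...` for both valuation rings -/
def Ex2 (z : M) (n : ℤ) (r : k) : Prop := ∀ i, Ex (Ws i) y z n r

variable {Ws y} (hk : ∀ i, ∀ c : k, algebraMap k M c ∈ Ws i) (hy : ∀ i, y ∈ (Ws i).nonunits)
  (hy0 : y ≠ 0)

include hk in
lemma Ex2.ne {z : M} {n : ℤ} {r : k} (h : Ex2 Ws y z n r) (hr : r ≠ 0) : z ≠ 0 :=
  (h true).ne (hk true) hr

include hk hy0 in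
lemma Ex2.mul {z z' : M} {n n' : ℤ} {r r' : k} (h : Ex2 Ws y z n r) (h' : Ex2 Ws y z' n' r') :
    Ex2 Ws y (z * z') (n + n') (r * r') := fun i => (h i).mul (hk i) hy0 (h' i)

include hk in
lemma Ex2.inv {z : M} {n : ℤ} {r : k} (h : Ex2 Ws y z n r) (hr : r ≠ 0) :
    Ex2 Ws y z⁻¹ (-n) r⁻¹ := fun i => (h i).inv (hk i) hr

lemma Ex2.add {z z' : M} {n : ℤ} {r r' : k} (h : Ex2 Ws y z n r) (h' : Ex2 Ws y z' n r') :
    Ex2 Ws y (z + z') n (r + r') := fun i => (h i).add (h' i)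

include hk hy hy0 in
lemma Ex2.add_lt {z z' : M} {n n' : ℤ} {r r' : k} (h : Ex2 Ws y z n r) (h' : Ex2 Ws y z' n' r')
    (hn : n < n') : Ex2 Ws y (z + z') n r := fun i => (h i).add_lt (hk i) (hy i) hy0 (h' i) hn

variable (k Ws y) in
/-- all elements of `T` have a leading term with coefficient in `k` -/
def Good2 (T : Subfield M) : Prop := ∀ z ∈ T, z ≠ 0 → ∃ (n : ℤ) (r : k), r ≠ 0 ∧ Ex2 Ws y z n r

include hk hy hy0 in
/-- adjoining a square root congruent to `1` -/
theorem Good2.step [CharZero k] {T : Subfield M} (hT : Good2 k Ws y T) {δ : M} (hδ2 : δ ^ 2 ∈ T)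
    (hδ : ∀ i, δ - 1 ∈ (Ws i).nonunits) :
    ∃ T' : Subfield M, T ≤ T' ∧ δ ∈ T' ∧ Good2 k Ws y T' := by
  have hδe : Ex2 Ws y δ 0 (1 : k) := fun i => Ex.const_mul_one (hδ i)
  obtain ⟨T', h1, h2, h3, h4⟩ := exists_quad T δ hδ2
  refine ⟨T', h1, h2, ?_⟩
  intro z hz hz0
  obtain ⟨a, ha, b, hb, rfl⟩ := h3 z hz
  by_cases hb0 : b = 0
  · rw [hb0, zero_mul, add_zero] at hz0 ⊢
    exact hT a ha hz0
  by_cases ha0 : a = 0
  · rw [ha0, zero_add]
    obtain ⟨n, r, hr, h⟩ := hT b hb hb0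
    refine ⟨n, r, hr, ?_⟩
    have h1 := h.mul hk hy0 hδe
    rwa [add_zero, mul_one] at h1
  obtain ⟨n, r, hr, h⟩ := hT a ha ha0
  obtain ⟨n', r', hr', h'⟩ := hT b hb hb0
  have hb' : Ex2 Ws y (b * δ) n' r' := by
    have h1 := h'.mul hk hy0 hδe
    rwa [add_zero, mul_one] at h1
  rcases lt_trichotomy n n' with hn | hn | hn
  · exact ⟨n, r, hr, h.add_lt hk hy hy0 hb' hn⟩
  · subst hn
    by_cases hrr : r + r' = 0
    · have hr'' : r' = -r := by linear_combination hrr
      have hbneg : Ex2 Ws y (-(b * δ)) n r := by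
        have h0 : Ex2 Ws y (algebraMap k M (-1)) 0 (-1 : k) := fun i =>
          Ex.const (W := Ws i) (y := y) (hk i) (-1 : k)
        have h1 := h0.mul hk hy0 hb'
        rw [map_neg, map_one, neg_one_mul, zero_add, hr'', neg_one_mul, neg_neg] at h1
        exact h1
      have hconj : Ex2 Ws y (a - b * δ) n (r + r) := by
        rw [sub_eq_add_neg]
        exact h.add hbneg
      have h2r : r + r ≠ 0 := by
        rw [← two_mul]
        exact mul_ne_zero two_ne_zero hr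
      have hc0 := hconj.ne hk h2r
      have hmem : a ^ 2 - b ^ 2 * δ ^ 2 ∈ T := sub_mem (pow_mem ha 2) (mul_mem (pow_mem hb 2) hδ2)
      have hprod : a ^ 2 - b ^ 2 * δ ^ 2 = (a + b * δ) * (a - b * δ) := by ring
      obtain ⟨n'', r'', hr'', h''⟩ := hT _ hmem (by
        rw [hprod]
        exact mul_ne_zero hz0 hc0)
      refine ⟨n'' + -n, r'' * (r + r)⁻¹, mul_ne_zero hr'' (inv_ne_zero h2r), ?_⟩
      have h1 := h''.mul hk hy0 (hconj.inv hk h2r)
      rwa [hprod, mul_assoc, mul_inv_cancel₀ hc0, mul_one] at h1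
    · exact ⟨n, r + r', hrr, h.add hb'⟩
  · refine ⟨n', r', hr', ?_⟩
    rw [add_comm]
    exact hb'.add_lt hk hy hy0 h hn

include hk hy hy0 in
/-- adjoining several square roots -/
theorem Good2.adjoin [CharZero k] {T : Subfield M} (hT : Good2 k Ws y T) (S : Finset M)
    (hS : ∀ δ ∈ S, δ ^ 2 ∈ T ∧ ∀ i, δ - 1 ∈ (Ws i).nonunits) :
    ∃ T' : Subfield M, T ≤ T' ∧ (∀ δ ∈ S, δ ∈ T') ∧ Good2 k Ws y T' := by
  classical
  induction S using Finset.induction_on with
  | empty => exact ⟨T, le_rfl, fun δ hδ => absurd hδ (Finset.notMem_empty δ), hT⟩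
  | insert a S ha ih =>
    obtain ⟨T₁, h1, h2, h3⟩ := ih fun δ hδ => hS δ (Finset.mem_insert_of_mem hδ)
    obtain ⟨T₂, h5, h6, h7⟩ := h3.step hk hy hy0
      (h1 (hS a (Finset.mem_insert_self a S)).1) (hS a (Finset.mem_insert_self a S)).2
    refine ⟨T₂, h1.trans h5, ?_, h7⟩
    intro δ hδ
    rcases Finset.mem_insert.1 hδ with rfl | hδ
    · exact h6
    · exact h5 (h2 δ hδ)

end ex2

section base2

variable {k M : Type*} [Field k] [CharZero k] [Field M] [Algebra k M]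
  {Ws : Bool → ValuationSubring M}
  {K : Type*} [Fintype K] [DecidableEq K] (e : K → k) (he : Function.Injective e) (d : k)
  (hd : d ≠ 0) (x y : M) (hy0 : y ≠ 0)
  (hxy : algebraMap k M d * y ^ 2 = ∏ l, (x - algebraMap k M (e l)))
  (hk : ∀ i, ∀ c : k, algebraMap k M c ∈ Ws i) (k0 : K)
  (hx0 : ∀ i, x - algebraMap k M (e k0) ∈ (Ws i).nonunits)

include hy0 hxy hd he hk hx0 in
omit [CharZero k] in
/-- expansions of the elements of `k(x)` -/
lemma Ex2_poly (p : k[X]) (hp : p ≠ 0) :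
    ∃ (m : ℤ) (r : k), r ≠ 0 ∧ Ex2 Ws y (aeval x p) (2 * m) r := by
  obtain ⟨q, hq, hq'⟩ := exists_eq_pow_rootMultiplicity_mul_and_not_dvd p hp (e k0)
  have h2 := (Ex_x e he d hd x y hy0 hxy (hk true) k0 (hx0 true)).2.1
  have hq0 : q.eval (e k0) ≠ 0 := by
    intro h
    exact hq' (dvd_iff_isRoot.2 h)
  refine ⟨p.rootMultiplicity (e k0),
    (d * (∏ l ∈ Finset.univ.erase k0, (e k0 - e l))⁻¹) ^ p.rootMultiplicity (e k0) * q.eval (e k0),
    mul_ne_zero (pow_ne_zero _ h2) hq0, fun i => ?_⟩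
  obtain ⟨h1, -, h3⟩ := Ex_x e he d hd x y hy0 hxy (hk i) k0 (hx0 i)
  have hqe : Ex (Ws i) y (aeval x q) 0 (q.eval (e k0)) := by
    obtain ⟨s, hs⟩ := X_sub_C_dvd_sub_C_eval (a := e k0) (p := q)
    unfold Ex
    have h5 : aeval x q / y ^ (0 : ℤ) - algebraMap k M (q.eval (e k0)) =
        aeval x s * (x - algebraMap k M (e k0)) := by
      have h6 := congrArg (aeval x) hs
      rw [map_sub, aeval_C, map_mul, map_sub, aeval_X, aeval_C] at h6
      rw [zpow_zero, div_one, h6, mul_comm]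
    rw [h5]
    refine nonunit_mul ?_ (hx0 i)
    have hxW := x_mem e x (hk i) k0 (hx0 i)
    rw [aeval_eq_sum_range]
    refine sum_mem fun j _ => ?_
    rw [Algebra.smul_def]
    exact mul_mem (hk i _) (pow_mem hxW _)
  have h6 := (h1.pow' hy0 (hk i) (p.rootMultiplicity (e k0))).mul (hk i) hy0 hqe
  have h7 : aeval x p = (x - algebraMap k M (e k0)) ^ p.rootMultiplicity (e k0) * aeval x q := by
    conv_lhs => rw [hq]
    rw [map_mul, map_pow, map_sub, aeval_X, aeval_C]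
  have h8 : ((p.rootMultiplicity (e k0) : ℕ) : ℤ) * 2 + 0 = 2 * (p.rootMultiplicity (e k0) : ℤ) := by
    ring
  rw [h8, ← h7] at h6
  exact h6

include hy0 hxy hd he hk hx0 in
/-- all elements of `k(x, y)` have leading terms with coefficients in `k` -/
theorem good2_base : ∃ T : Subfield M, (∀ c : k, algebraMap k M c ∈ T) ∧ x ∈ T ∧ y ∈ T ∧
    Good2 k Ws y T := by
  have hyn : ∀ i, y ∈ (Ws i).nonunits := fun i =>
    (Ex_x e he d hd x y hy0 hxy (hk i) k0 (hx0 i)).2.2
  set T₁ : Subfield M := (IntermediateField.adjoin k {x}).toSubfield with hT₁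
  have hkT : ∀ c : k, algebraMap k M c ∈ T₁ := fun c =>
    (IntermediateField.adjoin k {x}).algebraMap_mem c
  have hxT : x ∈ T₁ := IntermediateField.mem_adjoin_simple_self k x
  have hg1 : ∀ z ∈ T₁, z ≠ 0 → ∃ (m : ℤ) (r : k), r ≠ 0 ∧ Ex2 Ws y z (2 * m) r := by
    intro z hz hz0
    have hz' : z ∈ IntermediateField.adjoin k {x} := hz
    rw [IntermediateField.mem_adjoin_simple_iff] at hz'
    obtain ⟨p, q, rfl⟩ := hz'
    have hp : p ≠ 0 := by
      rintro rfl
      rw [map_zero, zero_div] at hz0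
      exact hz0 rfl
    have hq : q ≠ 0 := by
      rintro rfl
      rw [map_zero, div_zero] at hz0
      exact hz0 rfl
    obtain ⟨m, r, hr, h⟩ := Ex2_poly e he d hd x y hy0 hxy hk k0 hx0 p hp
    obtain ⟨m', r', hr', h'⟩ := Ex2_poly e he d hd x y hy0 hxy hk k0 hx0 q hq
    refine ⟨m - m', r * r'⁻¹, mul_ne_zero hr (inv_ne_zero hr'), ?_⟩
    have h1 := h.mul hk hy0 (h'.inv hk hr')
    rw [← div_eq_mul_inv] at h1
    have h2 : 2 * (m - m') = 2 * m + -(2 * m') := by ring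
    rw [h2]
    exact h1
  have hy2 : y ^ 2 ∈ T₁ := by
    have h1 : y ^ 2 = (algebraMap k M d)⁻¹ * ∏ l, (x - algebraMap k M (e l)) := by
      rw [← hxy, ← mul_assoc, inv_mul_cancel₀ ((_root_.map_ne_zero _).2 hd), one_mul]
    rw [h1]
    exact mul_mem (inv_mem (hkT d)) (prod_mem fun l _ => sub_mem hxT (hkT _))
  obtain ⟨T, h1, h2, h3, h4⟩ := exists_quad T₁ y hy2
  refine ⟨T, fun c => h1 (hkT c), h1 hxT, h2, ?_⟩
  intro z hz hz0
  obtain ⟨a, ha, b, hb, rfl⟩ := h3 z hz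
  have hye : Ex2 Ws y y 1 (1 : k) := by
    intro i
    unfold Ex
    rw [zpow_one, div_self hy0, map_one, sub_self, ValuationSubring.mem_nonunits_iff_or]
    exact Or.inl rfl
  by_cases hb0 : b = 0
  · rw [hb0, zero_mul, add_zero] at hz0 ⊢
    obtain ⟨m, r, hr, h⟩ := hg1 a ha hz0
    exact ⟨_, r, hr, h⟩
  obtain ⟨m', r', hr', h'⟩ := hg1 b hb hb0
  have hb' : Ex2 Ws y (b * y) (2 * m' + 1) r' := by
    have h5 := h'.mul hk hy0 hye
    rwa [mul_one] at h5
  by_cases ha0 : a = 0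
  · rw [ha0, zero_add]
    exact ⟨_, r', hr', hb'⟩
  obtain ⟨m, r, hr, h⟩ := hg1 a ha ha0
  rcases lt_trichotomy (2 * m) (2 * m' + 1) with hn | hn | hn
  · exact ⟨_, r, hr, h.add_lt hk hyn hy0 hb' hn⟩
  · omega
  · refine ⟨2 * m' + 1, r', hr', ?_⟩
    rw [add_comm]
    exact hb'.add_lt hk hyn hy0 h hn

include hy0 hxy hd he hk hx0 in
/-- the main step: a field containing everything, with common leading terms -/
theorem good2_main [IsAlgClosed k] (hev : Even (Fintype.card K)) (δ : K → K → M)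
    (hδ2 : ∀ i j, i ≠ k0 → j ≠ k0 → δ i j ^ 2 =
      (x - algebraMap k M (e i)) / algebraMap k M (e k0 - e i) *
        ((x - algebraMap k M (e j)) / algebraMap k M (e k0 - e j)))
    (hδ1 : ∀ w, ∀ i j, i ≠ k0 → j ≠ k0 → δ i j - 1 ∈ (Ws w).nonunits) :
    ∃ T : Subfield M, Good2 k Ws y T ∧ M2 (algebraMap k M) e x y ≤ T := by
  classical
  have hyn : ∀ i, y ∈ (Ws i).nonunits := fun i =>
    (Ex_x e he d hd x y hy0 hxy (hk i) k0 (hx0 i)).2.2
  obtain ⟨T, hkT, hxT, hyT, hgood⟩ := good2_base e he d hd x y hy0 hxy hk k0 hx0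
  set S : Finset M := (((Finset.univ.erase k0) ×ˢ (Finset.univ.erase k0)).image
    fun p : K × K => δ p.1 p.2) with hS
  have hSmem : ∀ a, a ∈ S ↔ ∃ l l', l ≠ k0 ∧ l' ≠ k0 ∧ δ l l' = a := by
    intro a
    rw [hS, Finset.mem_image]
    constructor
    · rintro ⟨⟨l, l'⟩, h, rfl⟩
      rw [Finset.mem_product] at h
      exact ⟨l, l', Finset.ne_of_mem_erase h.1, Finset.ne_of_mem_erase h.2, rfl⟩
    · rintro ⟨l, l', hl, hl', rfl⟩
      exact ⟨⟨l, l'⟩, Finset.mem_product.2 ⟨Finset.mem_erase.2 ⟨hl, Finset.mem_univ _⟩,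
        Finset.mem_erase.2 ⟨hl', Finset.mem_univ _⟩⟩, rfl⟩
  obtain ⟨T', hTT', hST', hgood'⟩ := hgood.adjoin hk hyn hy0 S (by
    intro a ha
    obtain ⟨l, l', hl, hl', rfl⟩ := (hSmem a).1 ha
    refine ⟨?_, fun w => hδ1 w l l' hl hl'⟩
    rw [hδ2 l l' hl hl']
    exact mul_mem (div_mem (sub_mem hxT (hkT _)) (hkT _))
      (div_mem (sub_mem hxT (hkT _)) (hkT _)))
  refine ⟨T', hgood', ?_⟩
  have hE : ∀ l, l ≠ k0 → algebraMap k M (e k0 - e l) ≠ 0 := fun l hl =>
    (_root_.map_ne_zero _).2 (sub_ne_zero.2 (he.ne hl.symm))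
  have h1 := M2_le (algebraMap k M) (fun c => rfl) e he d hd x y hy0 hxy hev T' (hTT' hxT)
    (hTT' hyT) (fun c => hTT' (hkT c)) k0
    (fun l l' => δ l l' * algebraMap k M ((e k0 - e l) * (e k0 - e l')))
    (fun l l' hl hl' => mul_mem (hST' _ ((hSmem _).2 ⟨l, l', hl, hl', rfl⟩)) (hTT' (hkT _)))
    (fun l l' hl hl' => by
      rw [mul_pow, hδ2 l l' hl hl', map_mul]
      have h2 := hE l hl
      have h3 := hE l' hl'
      field_simp)
  refine h1.trans ?_
  rw [Subfield.closure_le]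
  rintro z (hz | ⟨a, rfl⟩)
  · exact hz
  · exact hTT' (hkT a)

end base2

/-- integrality is decided by the leading term -/
lemma mem_iff {k M : Type*} [Field k] [Field M] [Algebra k M] {W : ValuationSubring M} {y : M}
    (hk : ∀ c : k, algebraMap k M c ∈ W) (hy : y ∈ W.nonunits) (hy0 : y ≠ 0) {z : M} {n : ℤ}
    {r : k} (h : Ex W y z n r) (hr : r ≠ 0) : z ∈ W ↔ 0 ≤ n := by
  constructor
  · intro hz
    by_contra hn
    have hu := h.isU hk hr
    apply hu.not_nonunit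
    obtain ⟨m, hm⟩ := Int.eq_ofNat_of_zero_le (show 0 ≤ -n by omega)
    have hm' : n = -(m : ℤ) := by omega
    rw [hm', zpow_neg, div_inv_eq_mul, zpow_natCast]
    exact nonunit_mul hz (pow_nonunit hy (by omega))
  · intro hn
    obtain ⟨m, hm⟩ := Int.eq_ofNat_of_zero_le hn
    have h2 : z = (z / y ^ n) * y ^ m := by
      rw [hm]
      simp only [Int.ofNat_eq_natCast, zpow_natCast]
      rw [div_mul_cancel₀ _ (pow_ne_zero _ hy0)]
    rw [h2]
    exact mul_mem (h.mem hk) (pow_mem (W.nonunits_subset hy) _)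

/-- the residue of an integral element -/
lemma exists_res {k M : Type*} [Field k] [Field M] [Algebra k M] {W : ValuationSubring M} {y : M}
    (hk : ∀ c : k, algebraMap k M c ∈ W) (hy : y ∈ W.nonunits) (hy0 : y ≠ 0) {z : M} {n : ℤ}
    {r : k} (h : Ex W y z n r) (hn : 0 ≤ n) : ∃ a : k, z - algebraMap k M a ∈ W.nonunits := by
  rcases hn.lt_or_eq with hn | hn
  · refine ⟨0, ?_⟩
    obtain ⟨m, hm⟩ := Int.eq_ofNat_of_zero_le hn.le
    have h2 : z - algebraMap k M 0 = (z / y ^ n) * y ^ m := by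
      rw [hm, map_zero, sub_zero]
      simp only [Int.ofNat_eq_natCast, zpow_natCast]
      rw [div_mul_cancel₀ _ (pow_ne_zero _ hy0)]
    rw [h2]
    exact nonunit_mul (h.mem hk) (pow_nonunit hy (by omega))
  · refine ⟨r, ?_⟩
    have h1 := h
    unfold Ex at h1
    rwa [← hn, zpow_zero, div_one] at h1

universe u v w

/-- **uniqueness of the place** -/
theorem stabx : Pool.Agent.W623.SecH.STABX.{u, v, w} := by
  intro A M _ _ _ _ ι X _ _ hev θ hθ c hc x y hy0 hxy _ r δ hδ2 W W' hW hW'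
  letI : Algebra A M := ι.toAlgebra
  have hy := fun (V : ValuationSubring M) (hV : Pl ι θ x r δ V) =>
    (Ex_x (k := A) (M := M) θ hθ c hc x y hy0 hxy hV.const r hV.non).2.2
  obtain ⟨T, hT, hle⟩ := good2_main (k := A) (M := M) (Ws := fun b => bif b then W else W')
    θ hθ c hc x y hy0 hxy
    (fun b => by cases b; exacts [hW'.const, hW.const]) r
    (fun b => by cases b; exacts [hW'.non, hW.non]) hev δ
    (fun i j hi hj => hδ2 i j hi hj)
    (fun b => by cases b; exacts [hW'.one, hW.one])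
  have hle' : M2x ι θ x y ≤ T := by
    refine le_trans ?_ hle
    unfold M2x M2
    rw [Subfield.closure_le]
    rintro z ((hz | hz) | hz)
    · exact Subfield.subset_closure (Or.inl hz)
    · exact Subfield.subset_closure (Or.inr (Or.inl hz))
    · exact Subfield.subset_closure (Or.inr (Or.inr hz))
  refine ⟨fun z hz => ?_, fun z hz hzW => ?_⟩
  · by_cases hz0 : z = 0
    · rw [hz0]
      exact ⟨fun _ => zero_mem _, fun _ => zero_mem _⟩
    · obtain ⟨n, a, ha, h⟩ := hT z (hle' hz) hz0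
      exact (mem_iff hW.const (hy W hW) hy0 (h true) ha).trans
        (mem_iff hW'.const (hy W' hW') hy0 (h false) ha).symm
  · by_cases hz0 : z = 0
    · refine ⟨0, ?_⟩
      rw [hz0, map_zero, sub_zero, ValuationSubring.mem_nonunits_iff_or]
      exact Or.inl rfl
    · obtain ⟨n, a, ha, h⟩ := hT z (hle' hz) hz0
      exact exists_res hW.const (hy W hW) hy0 (h true)
        ((mem_iff hW.const (hy W hW) hy0 (h true) ha).1 hzW)

end Pool.Agent.W303.SH
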